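import Pool.Agent.Q118.NormGap2

/-!
# A symmetric divisible design with `33` points

`D` is a set of seven residues modulo `33` in which every nonzero multiple of `3` is a difference
twice and every other nonzero residue once.
-/

namespace Pool.Agent.Q105.SDD

open Finset Pool.Agent.Q118.NormGap

/-- the divisible difference set -/
def D : Finset (ZMod 33) := {0, 7, 10, 11, 13, 19, 28}

/-- point `p` is on block `l` iff `l - p` is in `D` -/
def R (p l : ZMod 33) : Prop := l - p ∈ D

instance (p l : ZMod 33) : Decidable (R p l) := by unfold R; infer_instance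

/-- the class of a residue modulo `3` -/
def cl (p : ZMod 33) : ℕ := p.val % 3

theorem row (p : ZMod 33) : (univ.filter fun l => R p l).card = 7 := by
  revert p; decide +kernel

theorem col (l : ZMod 33) : (univ.filter fun p => R p l).card = 7 := by
  revert l; decide +kernel

theorem common (p q : ZMod 33) : (univ.filter fun l => R p l ∧ R q l).card
    = (if p = q then 5 else 0) + (if cl p = cl q then 1 else 0) + 1 := by
  revert p q; decide +kernel

theorem common' (l m : ZMod 33) : (univ.filter fun p => R p l ∧ R p m).card
    = (if l = m then 5 else 0) + (if cl l = cl m then 1 else 0) + 1 := by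
  revert l m; decide +kernel

section general

variable {P L : Type} [Fintype P] [Fintype L] [DecidableEq P] (R : P → L → Prop)
  [∀ p l, Decidable (R p l)] (c : P → ℕ)

omit [DecidableEq P] in
theorem double (y : P → ℝ) (p : P) :
    (∑ l, if R p l then (∑ q, if R q l then y q else 0) else 0)
      = ∑ q, ((univ.filter fun l => R p l ∧ R q l).card : ℝ) * y q := by
  have h1 : ∀ l, (if R p l then (∑ q, if R q l then y q else 0) else 0)
      = ∑ q, (if R p l ∧ R q l then y q else 0) := by
    intro l
    by_cases h : R p l
    · simp [h]
    · simp [h]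
  rw [sum_congr rfl fun l _ => h1 l, sum_comm]
  refine sum_congr rfl fun q _ => ?_
  rw [← sum_filter, sum_const, nsmul_eq_mul]

/-- the double sum for a divisible configuration -/
theorem double_eq (hc : ∀ p q, (univ.filter fun l => R p l ∧ R q l).card
    = (if p = q then 5 else 0) + (if c p = c q then 1 else 0) + 1) (y : P → ℝ) (p : P) :
    (∑ l, if R p l then (∑ q, if R q l then y q else 0) else 0)
      = 5 * y p + (∑ q, if c p = c q then y q else 0) + ∑ q, y q := by
  rw [double]
  have h1 : ∀ q, ((univ.filter fun l => R p l ∧ R q l).card : ℝ) * y q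
      = (if p = q then 5 * y q else 0) + (if c p = c q then y q else 0) + y q := by
    intro q
    rw [hc]
    push_cast
    split_ifs <;> ring
  rw [sum_congr rfl fun q _ => h1 q, sum_add_distrib, sum_add_distrib]
  simp

/-- the class form is nonnegative -/
theorem class_nonneg (y : P → ℝ) : 0 ≤ ∑ p, y p * ∑ q, (if c p = c q then y q else 0) := by
  classical
  have h1 : ∑ p, y p * ∑ q, (if c p = c q then y q else 0)
      = ∑ r ∈ univ.image c, (∑ p, if c p = r then y p else 0) ^ 2 := by
    have h2 : ∀ r ∈ univ.image c, (∑ p, if c p = r then y p else 0) ^ 2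
        = ∑ p, (if c p = r then y p * ∑ q, (if c q = r then y q else 0) else 0) := by
      intro r _
      rw [sq, sum_mul]
      refine sum_congr rfl fun p _ => ?_
      split_ifs <;> simp
    rw [sum_congr rfl h2, sum_comm]
    refine sum_congr rfl fun p _ => ?_
    rw [sum_ite_eq]
    simp only [mem_image, mem_univ, true_and, exists_apply_eq_apply, if_true]
    congr 1
    refine sum_congr rfl fun q _ => ?_
    by_cases h : c p = c q
    · rw [if_pos h, if_pos h.symm]
    · rw [if_neg h, if_neg (fun h' => h h'.symm)]
  rw [h1]
  exact sum_nonneg fun r _ => sq_nonneg _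

/-- the eigenvalue bound on one side -/
theorem five_le (hc : ∀ p q, (univ.filter fun l => R p l ∧ R q l).card
    = (if p = q then 5 else 0) + (if c p = c q then 1 else 0) + 1)
    {m : ℝ} {y : P → ℝ} {z : L → ℝ} (hy : y ≠ 0)
    (e1 : ∀ p, (∑ l, if R p l then z l else 0) = m * y p)
    (e2 : ∀ l, (∑ p, if R p l then y p else 0) = m * z l) : 5 ≤ m * m := by
  have key : ∀ p, m * m * y p = 5 * y p + (∑ q, if c p = c q then y q else 0) + ∑ q, y q := by
    intro p
    rw [← double_eq R c hc y p]
    have : ∀ l, (if R p l then (∑ q, if R q l then y q else 0) else 0) =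
        m * (if R p l then z l else 0) := by
      intro l
      rw [e2]
      split_ifs <;> simp
    rw [sum_congr rfl fun l _ => this l, ← mul_sum, e1]
    ring
  have hpos : 0 < ∑ p, y p ^ 2 := by
    obtain ⟨p, hp⟩ := Function.ne_iff.1 hy
    refine lt_of_lt_of_le (pow_pos (abs_pos.2 hp) 2) ?_
    rw [sq_abs]
    exact single_le_sum (f := fun p => y p ^ 2) (fun q _ => sq_nonneg _) (mem_univ p)
  have hsum : m * m * ∑ p, y p ^ 2 = 5 * ∑ p, y p ^ 2
      + (∑ p, y p * ∑ q, (if c p = c q then y q else 0)) + (∑ q, y q) ^ 2 := by
    have h1 : ∀ p, m * m * y p ^ 2 = 5 * y p ^ 2 + y p * (∑ q, if c p = c q then y q else 0)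
        + y p * ∑ q, y q := by
      intro p
      have := key p
      linear_combination (y p) * this
    rw [mul_sum, sum_congr rfl fun p _ => h1 p, sum_add_distrib, sum_add_distrib, ← mul_sum,
      ← sum_mul]
    ring
  have h2 := class_nonneg c y
  have h3 := sq_nonneg (∑ q, y q)
  by_contra hlt
  have h4 : m * m < 5 := not_le.1 hlt
  nlinarith

end general

end Pool.Agent.Q105.SDD
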